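import Pool.Agent.H68.BT.PP
import Pool.Agent.H68.BG.Main

/-!
# The blow-up of instances is computable in polynomial time
-/

namespace Pool.Agent.H68.BT

open Pool.Agent.H1.NP Pool.Agent.H1.PNP
open Pool.Agent.H68.OQP hiding eN eE
open Pool.Agent.H68.NPH hiding prs eN
open Function
open Pool.Agent.H68.BP (ph cV cC eE eN eZ code code_eq CSP csp_code csp_true code_of_cV ph_vals
  strOf polyOn_numsR lgF)

/-- generators of lists of rows of numbers -/
inductive Wg : Type
  | nil : Wg
  | row (r : List Ex) : Wg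
  | seq (g h : Wg) : Wg
  | cond (c : Cd) (g : Wg) : Wg
  | loop (e : Ex) (g : Wg) : Wg

open Classical in
/-- the rows generated -/
noncomputable def Wg.out (l : List ℕ) : List ℕ → Wg → List (List ℕ)
  | _, .nil => []
  | env, .row r => [r.map (fun e => e.val l env)]
  | env, .seq g h => g.out l env ++ h.out l env
  | env, .cond c g => if c.tv l env then g.out l env else []
  | env, .loop e g => (List.range (e.val l env)).flatMap (fun i => g.out l (i :: env))

/-- the generator printing a row -/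
def rowLg (r : List Ex) : Lg := r.foldr (fun e h => .seq (.el e) h) .nil

theorem rowLg_out {l env : List ℕ} (r : List Ex) :
    (rowLg r).out l env = r.map (fun e => e.val l env) := by
  induction r with
  | nil => rfl
  | cons e r ih =>
    have : (rowLg (e :: r)).out l env = (Lg.seq (.el e) (rowLg r)).out l env := rfl
    rw [this]
    simp only [Lg.out, ih]
    rfl

/-- the generator printing the flattened list -/
def Wg.toLg : Wg → Lg
  | .nil => .nil
  | .row r => rowLg r
  | .seq g h => .seq g.toLg h.toLg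
  | .cond c g => c.ite g.toLg .nil
  | .loop e g => .loop e g.toLg

theorem Wg.toLg_out (l : List ℕ) (g : Wg) : ∀ env, g.toLg.out l env = (g.out l env).flatten := by
  induction g with
  | nil => intro env; rfl
  | row r => intro env; simp [Wg.toLg, Wg.out, rowLg_out]
  | seq g h ihg ihh =>
    intro env
    simp only [Wg.toLg, Lg.out, Wg.out, ihg, ihh, List.flatten_append]
  | cond c g ih =>
    intro env
    simp only [Wg.toLg, Wg.out, Cd.ite_out, ih]
    split_ifs <;> rfl
  | loop e g ih =>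
    intro env
    simp only [Wg.toLg, Lg.out, Wg.out, ih]
    induction List.range (e.val l env) with
    | nil => rfl
    | cons i L ih2 => simp only [List.flatMap_cons, List.flatten_append, ih2]

/-- generators indexed by a list -/
def Wg.many {α : Type} (L : List α) (g : α → Wg) : Wg := L.foldr (fun a h => .seq (g a) h) .nil

variable {l env : List ℕ}

theorem Wg.mem_row {r : List Ex} {x : List ℕ} :
    x ∈ Wg.out l env (.row r) ↔ x = r.map (fun e => e.val l env) := by
  simp [Wg.out]

theorem Wg.mem_seq {g h : Wg} {x : List ℕ} :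
    x ∈ Wg.out l env (.seq g h) ↔ x ∈ Wg.out l env g ∨ x ∈ Wg.out l env h := by
  simp [Wg.out]

theorem Wg.mem_cond {c : Cd} {g : Wg} {x : List ℕ} :
    x ∈ Wg.out l env (.cond c g) ↔ c.tv l env ∧ x ∈ Wg.out l env g := by
  simp only [Wg.out]
  split_ifs with h <;> simp [h]

theorem Wg.mem_loop {e : Ex} {g : Wg} {x : List ℕ} :
    x ∈ Wg.out l env (.loop e g) ↔ ∃ i < e.val l env, x ∈ Wg.out l (i :: env) g := by
  simp [Wg.out, List.mem_flatMap]

theorem Wg.mem_many {α : Type} {L : List α} {g : α → Wg} {x : List ℕ} :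
    x ∈ Wg.out l env (Wg.many L g) ↔ ∃ a ∈ L, x ∈ Wg.out l env (g a) := by
  induction L with
  | nil => simp [Wg.many, Wg.out]
  | cons a L ih =>
    have : x ∈ Wg.out l env (Wg.many (a :: L) g) ↔
        x ∈ Wg.out l env (.seq (g a) (Wg.many L g)) := Iff.rfl
    rw [this, Wg.mem_seq, ih]
    simp

/-! ### Rows -/

section rows

variable {ρ : H69.BP.Sig} {σ' : BP.Sig} (cv : Cv ρ σ')

/-- the row of the symbol `s` with the entries `F` -/
def rowG {α : Type} (z : ℕ → α) (s : ρ.Sym) (F : ρ.Ar s → α) : List α :=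
  z (cv.e s) :: ((List.finRange (σ'.ar (cv.e s))).map (fun q => F ((cv.a s).symm q)) ++
    List.replicate (σ'.width - σ'.ar (cv.e s)) (z 0))

theorem rowG_length {α : Type} (z : ℕ → α) (s : ρ.Sym) (F : ρ.Ar s → α) :
    (rowG cv z s F).length = σ'.width + 1 := by
  have h : σ'.ar (cv.e s) ≤ σ'.width := Finset.le_sup (f := σ'.ar) (Finset.mem_univ _)
  simp only [rowG, List.length_cons, List.length_append, List.length_map, List.length_finRange,
    List.length_replicate]
  omega

theorem rowG_map (s : ρ.Sym) (F : ρ.Ar s → Ex) :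
    (rowG cv Ex.con s F).map (fun e => e.val l env) = rowG cv id s (fun p => (F p).val l env) := by
  simp only [rowG, List.map_cons, List.map_append, List.map_map, List.map_replicate, Ex.val, id]
  rfl

theorem rowG_getD {s : ρ.Sym} {F : ρ.Ar s → ℕ} (i : Fin (σ'.ar (cv.e s))) :
    (rowG cv id s F).getD (i + 1) 0 = F ((cv.a s).symm i) := by
  simp only [rowG, List.getD_cons_succ]
  rw [List.getD_append _ _ _ _ (by simp), List.getD_eq_getElem?_getD, List.getElem?_eq_getElem
    (by simp)]
  simp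

/-- the rows with a given symbol -/
theorem rowG_mem {s s' : ρ.Sym} {F : ρ.Ar s → ℕ} {x : Fin (σ'.ar (cv.e s')) → ℕ} :
    ((rowG cv id s F).getD 0 0 = (cv.e s' : ℕ) ∧
      ∀ i : Fin (σ'.ar (cv.e s')), (rowG cv id s F).getD (i + 1) 0 = x i) ↔
    ∃ h : s = s', ∀ p : ρ.Ar s', F (cast (by rw [h]) p) = x (cv.a s' p) := by
  constructor
  · rintro ⟨h1, h2⟩
    have h : s = s' := cv.e.injective (Fin.ext h1)
    subst h
    refine ⟨rfl, fun p => ?_⟩
    have := h2 (cv.a s p)
    rw [rowG_getD] at this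
    simpa using this
  · rintro ⟨rfl, h⟩
    refine ⟨rfl, fun i => ?_⟩
    rw [rowG_getD]
    have := h ((cv.a s).symm i)
    simpa using this

end rows

/-! ### The program -/

section prog

variable {σ σ' : BP.Sig} {k : ℕ} (cv : Cv (H69.BP.blow (toH σ) k) σ')

/-- the symbols of the blow-up -/
abbrev sN (σ : BP.Sig) (k : ℕ) : (H69.BP.blow (toH σ) k).Sym := (none : Option (Fin σ.m))

/-- the symbols of the blow-up -/
abbrev sS (k : ℕ) (l : Fin σ.m) : (H69.BP.blow (toH σ) k).Sym := some l

/-- the rows -/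
def wA : Wg :=
  .seq (.loop eN (.row (rowG cv Ex.con (sN σ k) (fun p : Bool × Fin (k + 1) =>
      .add (.con p.2) (.mul (.con (k + 1)) (.var 0))))))
    (.loop eZ (Wg.many (List.finRange σ.m) (fun l => .cond (cC σ l)
      (.row (rowG cv Ex.con (sS k l) (fun p : Fin (σ.ar l) × Fin (k + 1) =>
        .add (.con p.2) (.mul (.con (k + 1)) (eE σ (p.1 + 1)))))))))

/-- the whole program -/
def lgT : Lg := cV.ite (.seq (.el (.mul eN (.con (k + 1)))) (wA cv).toLg) .nil

/-- the output -/
noncomputable def red (x : List Bool) : List ℕ := (lgT cv).out (ph (σ.width + 1) x) []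

theorem polyOn_red : PolyOn (fun w : List Bool => w) unary (red cv) :=
  ((polyOn_numsR.comp (polyOn_lg (lgF (σ.width + 1)))).comp (polyOn_lg (lgT cv))).congr
    (fun q => q) (fun _ => rfl) (fun _ => rfl)

theorem red_bad {x : List Bool} (h : ¬ cV.tv (ph (σ.width + 1) x) []) : red cv x = [] := by
  unfold red lgT
  rw [Cd.ite_out, if_neg h]
  rfl

theorem csp_nil {A : Type} (𝔸 : BP.Str σ A) : ¬ CSP 𝔸 (unary []) = true := by
  intro h
  obtain ⟨n, L, -, h1⟩ := csp_true 𝔸 h
  rw [code_eq] at h1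
  have := congrArg List.length h1
  simp [unary] at this

section

variable {n : ℕ} {L : List (List ℕ)} (hL : ∀ c ∈ L, c.length = σ.width + 1)

include hL

theorem red_code : ∃ L' : List (List ℕ), (∀ c ∈ L', c.length = σ'.width + 1) ∧
    unary (red cv (code n L)) = code (n * (k + 1)) L' ∧
    ∀ c, c ∈ L' ↔
      (∃ x : Fin n, c = rowG cv id (sN σ k) (fun p : Bool × Fin (k + 1) => p.2 + (k + 1) * x)) ∨
      ∃ (l : Fin σ.m) (t : Fin (σ.ar l) → Fin n), strOf σ n L l t ∧
        c = rowG cv id (sS k l) (fun p : Fin (σ.ar l) × Fin (k + 1) =>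
          p.2 + (k + 1) * t p.1) := by
  obtain ⟨M, hM, h0, h1, h2, h3, h4⟩ := ph_vals (n := n) hL
  have hw : ∀ (l : Fin σ.m) (p : Fin (σ.ar l)), (p : ℕ) + 1 < σ.width + 1 := by
    intro l p
    have : σ.ar l ≤ σ.width := Finset.le_sup (f := σ.ar) (Finset.mem_univ l)
    have := p.2
    omega
  have hV : cV.tv M [] := by
    simp only [cV, tv_and, tv_le, tv_eq, Ex.val, h0, h3]
    exact ⟨le_rfl, trivial⟩
  have hmem : ∀ c, c ∈ (wA cv).out M [] ↔
      (∃ x : Fin n, c = rowG cv id (sN σ k) (fun p : Bool × Fin (k + 1) => p.2 + (k + 1) * x)) ∨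
      ∃ (l : Fin σ.m) (t : Fin (σ.ar l) → Fin n), strOf σ n L l t ∧
        c = rowG cv id (sS k l) (fun p : Fin (σ.ar l) × Fin (k + 1) =>
          p.2 + (k + 1) * t p.1) := by
    intro c
    unfold wA
    rw [Wg.mem_seq, Wg.mem_loop, Wg.mem_loop]
    refine or_congr ?_ ?_
    · simp only [eN, Ex.val, h2]
      constructor
      · rintro ⟨x, hx, hc⟩
        rw [Wg.mem_row, rowG_map] at hc
        exact ⟨⟨x, hx⟩, hc⟩
      · rintro ⟨x, hc⟩
        refine ⟨x, x.2, ?_⟩
        rw [Wg.mem_row, rowG_map]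
        exact hc
    · constructor
      · rintro ⟨j, hj, hm⟩
        rw [Wg.mem_many] at hm
        obtain ⟨l, -, hm⟩ := hm
        rw [Wg.mem_cond, Wg.mem_row, rowG_map] at hm
        obtain ⟨hc, hm⟩ := hm
        simp only [cC, tv_and, tv_le, tv_eq, tv_all, tv_lt, eE, eZ, eN, Ex.val,
          List.getD_cons_zero, h1, h2] at hc
        obtain ⟨⟨c1, c2⟩, c3⟩ := hc
        have hj' : j < L.length := by
          have : (j + 1) * (σ.width + 1) ≤ L.length * (σ.width + 1) := by
            rw [Nat.mul_comm (j + 1)]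
            omega
          exact Nat.lt_of_succ_le (Nat.le_of_mul_le_mul_right this (by omega))
        rw [h4 j hj' 0 (by omega)] at c2
        have c4 : ∀ p : Fin (σ.ar l), (L[j]).getD (p + 1) 0 < n := by
          intro p
          have := c3 p (List.mem_finRange p)
          rwa [h4 j hj' _ (hw l p)] at this
        refine ⟨l, fun p => ⟨_, c4 p⟩, ⟨L[j], List.getElem_mem hj', c2, fun i => rfl⟩, ?_⟩
        rw [hm]
        congr 1
        funext p
        simp only [eE, Ex.val, List.getD_cons_zero]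
        rw [h4 j hj' _ (hw l p.1)]
      · rintro ⟨l, t, ⟨c', hc', c1, c2⟩, hc⟩
        obtain ⟨j, hj, rfl⟩ := List.getElem_of_mem hc'
        refine ⟨j, ?_, ?_⟩
        · simp only [eZ, Ex.val, h1]
          have : L.length ≤ L.length * (σ.width + 1) := Nat.le_mul_of_pos_right _ (by omega)
          omega
        · rw [Wg.mem_many]
          refine ⟨l, List.mem_finRange l, ?_⟩
          rw [Wg.mem_cond, Wg.mem_row, rowG_map]
          constructor
          · simp only [cC, tv_and, tv_le, tv_eq, tv_all, tv_lt, eE, eZ, eN, Ex.val,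
              List.getD_cons_zero, h1, h2]
            refine ⟨⟨?_, ?_⟩, ?_⟩
            · have : (j + 1) * (σ.width + 1) ≤ L.length * (σ.width + 1) :=
                Nat.mul_le_mul_right _ hj
              rw [Nat.mul_comm (j + 1)] at this
              omega
            · rw [h4 j hj 0 (by omega)]
              exact c1
            · intro p _
              rw [h4 j hj _ (hw l p), c2 p]
              exact (t p).2
          · rw [hc]
            congr 1
            funext p
            simp only [eE, Ex.val, List.getD_cons_zero]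
            rw [h4 j hj _ (hw l p.1), c2 p.1]
  refine ⟨(wA cv).out M [], ?_, ?_, hmem⟩
  · intro c hc
    rcases (hmem c).1 hc with ⟨x, rfl⟩ | ⟨l, t, -, rfl⟩
    · exact rowG_length cv id _ _
    · exact rowG_length cv id _ _
  · unfold red lgT
    rw [hM, Cd.ite_out, if_pos hV, code_eq]
    simp only [Lg.out, Wg.toLg_out, eN, Ex.val, h2, List.singleton_append]

theorem corr_red {L' : List (List ℕ)} (hL' : ∀ c, c ∈ L' ↔
      (∃ x : Fin n, c = rowG cv id (sN σ k) (fun p : Bool × Fin (k + 1) => p.2 + (k + 1) * x)) ∨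
      ∃ (l : Fin σ.m) (t : Fin (σ.ar l) → Fin n), strOf σ n L l t ∧
        c = rowG cv id (sS k l) (fun p : Fin (σ.ar l) × Fin (k + 1) =>
          p.2 + (k + 1) * t p.1)) :
    Corr cv (fun s (u : (H69.BP.blow (toH σ) k).Ar s → Fin (n * (k + 1))) =>
      H69.BP.upStr (σ := toH σ) k (strOf σ n L) s (finProdFinEquiv.symm ∘ u))
      (strOf σ' (n * (k + 1)) L') := by
  have hfp : ∀ (y : Fin (n * (k + 1))) (x : Fin n) (j : Fin (k + 1)),
      finProdFinEquiv.symm y = (x, j) ↔ (j : ℕ) + (k + 1) * x = y := by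
    intro y x j
    rw [Equiv.symm_apply_eq, Fin.ext_iff]
    simp only [finProdFinEquiv_apply_val]
    exact eq_comm
  intro s x
  have h1 : strOf σ' (n * (k + 1)) L' (cv.e s) x ↔ ∃ c ∈ L', c.getD 0 0 = (cv.e s : ℕ) ∧
      ∀ i : Fin (σ'.ar (cv.e s)), c.getD (i + 1) 0 = (x i : ℕ) := Iff.rfl
  rw [h1]
  cases s with
  | none =>
    constructor
    · rintro ⟨c, hc, h2⟩
      rcases (hL' c).1 hc with ⟨y, rfl⟩ | ⟨l, t, -, rfl⟩
      · obtain ⟨_, h3⟩ := (rowG_mem cv).1 h2
        refine ⟨y, ?_⟩
        funext ⟨b, j⟩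
        have h4 := h3 (b, j)
        have h5 := (hfp (x (cv.a none (b, j))) y j).2 h4
        simp only [comp_apply]
        rw [h5]
        cases b <;> rfl
      · obtain ⟨h3, -⟩ := (rowG_mem cv).1 h2
        exact absurd h3 (by simp)
    · rintro ⟨y, hy⟩
      refine ⟨_, (hL' _).2 (Or.inl ⟨y, rfl⟩), (rowG_mem cv).2 ⟨rfl, ?_⟩⟩
      rintro ⟨b, j⟩
      have h4 := congrFun hy (b, j)
      refine (hfp _ _ _).1 ?_
      simp only [comp_apply] at h4
      rw [h4]
      cases b <;> rfl
  | some l =>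
    constructor
    · rintro ⟨c, hc, h2⟩
      rcases (hL' c).1 hc with ⟨y, rfl⟩ | ⟨l', t, ht, rfl⟩
      · obtain ⟨h3, -⟩ := (rowG_mem cv).1 h2
        exact absurd h3 (by simp)
      · obtain ⟨h3, h4⟩ := (rowG_mem cv).1 h2
        have h3' : l' = l := Option.some_injective _ h3
        subst h3'
        refine ⟨t, ht, ?_⟩
        funext p
        exact (hfp _ _ _).2 (h4 p)
    · rintro ⟨t, ht, hu⟩
      refine ⟨_, (hL' _).2 (Or.inr ⟨l, t, ht, rfl⟩), (rowG_mem cv).2 ⟨rfl, ?_⟩⟩
      intro p
      exact (hfp _ _ _).1 (congrFun hu p)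

end

theorem manyOne_blow {A V : Type} {𝔸 : BP.Str σ A} {c : (Fin (k + 1) → V) → A}
    (hc : H69.BP.Ext c) {𝔸' : BP.Str σ' V}
    (hA' : Corr cv (H69.BP.blowStr (σ := toH σ) 𝔸 c) 𝔸') :
    N793a5b8e.ManyOneReducible (CSP 𝔸) (CSP 𝔸') := by
  refine manyOne (polyOn_red cv) (Q := fun l => CSP 𝔸' (unary l) = true) (fun p => Iff.rfl)
    (fun x => ?_)
  by_cases h : cV.tv (ph (σ.width + 1) x) []
  · obtain ⟨n, L, h1, rfl⟩ := code_of_cV h
    obtain ⟨L', h2, h3, h4⟩ := red_code cv (n := n) h1
    rw [csp_code 𝔸 h1, h3, csp_code 𝔸' h2]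
    have h5 := corr_red cv h1 h4
    have h6 := H69.BP.csp_up (σ := toH σ) (A := 𝔸) hc (strOf σ n L)
    have h7 : (∃ f : Fin n → A, BP.IsHom (strOf σ n L) 𝔸 f) ↔
        ∃ h, H69.BP.IsHom (σ := toH σ) (strOf σ n L) 𝔸 h := Iff.rfl
    rw [h7, h6]
    constructor
    · rintro ⟨h, hh⟩
      refine ⟨h ∘ finProdFinEquiv.symm, (h5.hom hA').1 ?_⟩
      intro s t ht
      exact hh s _ ht
    · rintro ⟨f, hf⟩
      refine ⟨f ∘ finProdFinEquiv, ?_⟩
      intro s t ht
      refine (h5.hom hA').2 hf s (finProdFinEquiv ∘ t) ?_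
      have : finProdFinEquiv.symm ∘ (finProdFinEquiv ∘ t) = t := by
        funext p
        simp
      change H69.BP.upStr (σ := toH σ) k (strOf σ n L) s (finProdFinEquiv.symm ∘
        (finProdFinEquiv ∘ t))
      rw [this]
      exact ht
  · constructor
    · intro hx
      obtain ⟨n, L, h1, rfl⟩ := csp_true 𝔸 hx
      obtain ⟨M, hM, h0, -, -, h3, -⟩ := ph_vals (n := n) h1
      refine absurd ?_ h
      rw [hM]
      simp only [cV, tv_and, tv_le, tv_eq, Ex.val, h0, h3]
      exact ⟨le_rfl, trivial⟩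
    · intro hx
      rw [red_bad cv h] at hx
      exact absurd hx (csp_nil 𝔸')

end prog

end Pool.Agent.H68.BT
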