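import Pool.Agent.H68.BG.Conj

/-!
# The Bodirsky–Pinsker conjecture for templates with a `k`-transitive automorphism group
-/

namespace Pool.Agent.H68.BP

variable {σ τ : Sig} {A B : Type}

/-- The automorphism group of `𝔹` is `k`-transitive: it maps each injective `k`-tuple to each
injective `k`-tuple. -/
def KTransitive (k : ℕ) (𝔹 : Str τ B) : Prop :=
  ∀ x y : Fin k → B, Function.Injective x → Function.Injective y →
    ∃ g : B ≃ B, IsAut 𝔹 g ∧ ∀ i, g (x i) = y i

/-- `𝔸` is a model-complete core: every endomorphism maps each finite tuple into its orbit under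
the automorphism group. -/
def ModelCompleteCore (𝔸 : Str σ A) : Prop :=
  ∀ e : A → A, IsHom 𝔸 𝔸 e → ∀ (n : ℕ) (a : Fin n → A),
    ∃ g : A ≃ A, IsAut 𝔸 g ∧ ∀ i, g (a i) = e (a i)

/-- `𝔸` is a reduct of a countably infinite finitely bounded homogeneous structure which has a
`k`-transitive automorphism group and no algebraicity. -/
def TransitiveTemplate (k : ℕ) (𝔸 : Str σ A) : Prop :=
  Countable A ∧ Infinite A ∧ ∃ (τ : Sig) (𝔹 : Str τ A), Homogeneous 𝔹 ∧ FinitelyBounded 𝔹 ∧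
    IsReduct 𝔸 𝔹 ∧ KTransitive k 𝔹 ∧ NoAlgebraicity 𝔹

/-- The Bodirsky–Pinsker conjecture for `k`-transitive templates. -/
def BodirskyPinskerTransitive (k : ℕ) : Prop :=
  ∀ (σ : Sig) (D : Type) (𝔸 : Str σ D), TransitiveTemplate k 𝔸 → ¬ PPConstructsK3 𝔸 →
    CSP 𝔸 ∈ N68a2faeb.P

/-- The Bodirsky–Pinsker conjecture for model-complete cores. -/
def BodirskyPinskerCores : Prop :=
  ∀ (σ : Sig) (D : Type) (𝔸 : Str σ D), InScope 𝔸 → ModelCompleteCore 𝔸 → ¬ PPConstructsK3 𝔸 →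
    CSP 𝔸 ∈ N68a2faeb.P

/-- The Bodirsky–Pinsker conjecture for `k`-transitive templates that are model-complete cores. -/
def BodirskyPinskerTransitiveCores (k : ℕ) : Prop :=
  ∀ (σ : Sig) (D : Type) (𝔸 : Str σ D), TransitiveTemplate k 𝔸 → ModelCompleteCore 𝔸 →
    ¬ PPConstructsK3 𝔸 → CSP 𝔸 ∈ N68a2faeb.P

end Pool.Agent.H68.BP
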