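import Pool.Agent.H68.BT.Conj
import Pool.Agent.H69.BP.Core

/-!
# Structures over signatures with numbered positions, and with positions indexed by finite types
-/

namespace Pool.Agent.H68.BT

open Function

/-- a numbering of the symbols and positions of a signature -/
structure Cv (ρ : H69.BP.Sig) (σ : BP.Sig) where
  e : ρ.Sym ≃ Fin σ.m
  a : ∀ s, ρ.Ar s ≃ Fin (σ.ar (e s))

variable {ρ ρ' : H69.BP.Sig} {σ σ' : BP.Sig} {M N : Type}

/-- the structures correspond to each other -/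
def Corr (cv : Cv ρ σ) (A : H69.BP.Str ρ M) (𝔸 : BP.Str σ M) : Prop :=
  ∀ (s : ρ.Sym) (x : Fin (σ.ar (cv.e s)) → M), 𝔸 (cv.e s) x ↔ A s (x ∘ cv.a s)

/-- a numbered signature as a signature -/
@[reducible] def toH (σ : BP.Sig) : H69.BP.Sig where
  Sym := Fin σ.m
  Ar := fun l => Fin (σ.ar l)
  finSym := inferInstance
  finAr := fun _ => inferInstance

/-- the identity -/
def cvId (σ : BP.Sig) : Cv (toH σ) σ := ⟨Equiv.refl _, fun _ => Equiv.refl _⟩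

theorem exists_cv (ρ : H69.BP.Sig) : ∃ σ : BP.Sig, Nonempty (Cv ρ σ) := by
  have := ρ.finSym
  have h2 := ρ.finAr
  refine ⟨⟨Nat.card ρ.Sym, fun l => Nat.card (ρ.Ar ((Finite.equivFin ρ.Sym).symm l))⟩,
    ⟨⟨Finite.equivFin ρ.Sym, fun s => ?_⟩⟩⟩
  have e1 : Nat.card (ρ.Ar s) =
      Nat.card (ρ.Ar ((Finite.equivFin ρ.Sym).symm (Finite.equivFin ρ.Sym s))) := by
    rw [Equiv.symm_apply_apply]
  exact (Finite.equivFin (ρ.Ar s)).trans (finCongr e1)

theorem exists_corr (cv : Cv ρ σ) (A : H69.BP.Str ρ M) : ∃ 𝔸 : BP.Str σ M, Corr cv A 𝔸 := by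
  have h : ∀ l : Fin σ.m, ∃ R : (Fin (σ.ar l) → M) → Prop, ∀ (s : ρ.Sym) (h : cv.e s = l)
      (x : Fin (σ.ar l) → M), R x ↔ A s (fun p => x (Fin.cast (by rw [h]) (cv.a s p))) := by
    intro l
    obtain ⟨s, rfl⟩ := cv.e.surjective l
    refine ⟨fun x => A s (fun p => x (cv.a s p)), ?_⟩
    intro s' h x
    have h' := cv.e.injective h
    subst h'
    exact Iff.rfl
  choose R hR using h
  exact ⟨R, fun s x => hR (cv.e s) s rfl x⟩

section

variable {cv : Cv ρ σ} {cv' : Cv ρ' σ'} {A : H69.BP.Str ρ M} {𝔸 : BP.Str σ M}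
  {B : H69.BP.Str ρ N} {𝔹 : BP.Str σ N}

theorem Corr.rel (hA : Corr cv A 𝔸) (s : ρ.Sym) (t : ρ.Ar s → M) :
    A s t ↔ 𝔸 (cv.e s) (t ∘ (cv.a s).symm) := by
  rw [hA]
  have : (t ∘ (cv.a s).symm) ∘ cv.a s = t := by
    funext p
    simp
  rw [this]

theorem Corr.hom (hA : Corr cv A 𝔸) (hB : Corr cv B 𝔹) {h : M → N} :
    H69.BP.IsHom A B h ↔ BP.IsHom 𝔸 𝔹 h := by
  constructor
  · intro hh l x hx
    obtain ⟨s, rfl⟩ := cv.e.surjective l
    exact (hB s _).2 (hh s _ ((hA s x).1 hx))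
  · intro hh s t ht
    exact (hB.rel s _).2 (hh (cv.e s) _ ((hA.rel s t).1 ht))

theorem Corr.emb (hA : Corr cv A 𝔸) (hB : Corr cv B 𝔹) {h : M → N} :
    H69.BP.IsEmb A B h ↔ BP.IsEmb 𝔸 𝔹 h := by
  refine and_congr_right fun _ => ?_
  constructor
  · intro hh l x
    obtain ⟨s, rfl⟩ := cv.e.surjective l
    exact (hA s x).trans ((hh s _).trans (hB s (fun i => h (x i))).symm)
  · intro hh s t
    exact (hA.rel s t).trans ((hh (cv.e s) _).trans (hB.rel s (h ∘ t)).symm)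

theorem Corr.aut (hA : Corr cv A 𝔸) {g : M ≃ M} : H69.BP.IsAut A g ↔ BP.IsAut 𝔸 g := by
  constructor
  · intro hh l x
    obtain ⟨s, rfl⟩ := cv.e.surjective l
    exact (hA s x).trans ((hh s _).trans (hA s (fun i => g (x i))).symm)
  · intro hh s t
    exact (hA.rel s t).trans ((hh (cv.e s) _).trans (hA.rel s (g ∘ t)).symm)

theorem Corr.homogeneous (hA : Corr cv A 𝔸) : H69.BP.Homogeneous A ↔ BP.Homogeneous 𝔸 := by
  classical
  constructor
  · intro hh F f hf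
    let f' : M → M := fun x => if h : x ∈ F then f ⟨x, h⟩ else x
    have hf' : ∀ x (h : x ∈ F), f' x = f ⟨x, h⟩ := fun x h => dif_pos h
    have i1 : Set.InjOn f' F := by
      intro x hx y hy hxy
      rw [hf' x hx, hf' y hy] at hxy
      exact congrArg Subtype.val (hf.1 hxy)
    have i2 : ∀ s t, (∀ i, t i ∈ F) → (A s t ↔ A s (f' ∘ t)) := by
      intro s t ht
      have h3 := hf.2 (cv.e s) (fun i => ⟨t ((cv.a s).symm i), ht _⟩)
      have h4 := hA.rel s t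
      have h5 := hA.rel s (f' ∘ t)
      rw [h4, h5]
      refine h3.trans ?_
      have e : (fun i => f ⟨t ((cv.a s).symm i), ht _⟩) = (f' ∘ t) ∘ (cv.a s).symm := by
        funext i
        exact (hf' _ _).symm
      rw [e]
    obtain ⟨g, h1, h2⟩ := hh F f' i1 i2
    exact ⟨g, hA.aut.1 h1, fun x => (h2 x x.2).trans (hf' x x.2)⟩
  · intro hh S f hf hf2
    have i1 : BP.IsEmb (fun l (x : Fin (σ.ar l) → S) => 𝔸 l (fun i => (x i : M))) 𝔸
        (fun x : S => f x) := by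
      refine ⟨fun x y hxy => Subtype.ext (hf x.2 y.2 hxy), ?_⟩
      intro l x
      obtain ⟨s, rfl⟩ := cv.e.surjective l
      have h3 := hf2 s (fun p => (x (cv.a s p) : M)) (fun p => (x (cv.a s p)).2)
      exact (hA s (fun i => (x i : M))).trans (h3.trans (hA s (fun i => f (x i))).symm)
    obtain ⟨g, h1, h2⟩ := hh S (fun x => f x) i1
    exact ⟨g, hA.aut.2 h1, fun x hx => h2 ⟨x, hx⟩⟩

theorem Corr.kTransitive (hA : Corr cv A 𝔸) {k : ℕ} :
    H69.BP.KTransitive k A ↔ BP.KTransitive k 𝔸 := by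
  refine forall_congr' fun x => forall_congr' fun y => forall_congr' fun _ =>
    forall_congr' fun _ => exists_congr fun g => ?_
  rw [hA.aut, funext_iff]
  exact Iff.rfl

theorem Corr.noAlgebraicity (hA : Corr cv A 𝔸) :
    H69.BP.NoAlgebraicity A ↔ BP.NoAlgebraicity 𝔸 := by
  refine forall_congr' fun S => forall_congr' fun v => forall_congr' fun _ => ?_
  simp only [hA.aut]

theorem Corr.core (hA : Corr cv A 𝔸) : H69.BP.ModelCompleteCore A ↔ BP.ModelCompleteCore 𝔸 := by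
  refine forall_congr' fun e => ?_
  rw [hA.hom hA]
  refine forall_congr' fun _ => forall_congr' fun n => forall_congr' fun a =>
    exists_congr fun g => ?_
  rw [hA.aut, funext_iff]
  exact Iff.rfl

theorem exists_corr' (cv : Cv ρ σ) (𝔸 : BP.Str σ M) : ∃ A : H69.BP.Str ρ M, Corr cv A 𝔸 := by
  refine ⟨fun s t => 𝔸 (cv.e s) (t ∘ (cv.a s).symm), fun s x => ?_⟩
  have : (x ∘ cv.a s) ∘ (cv.a s).symm = x := by
    funext p
    simp
  change 𝔸 (cv.e s) x ↔ 𝔸 (cv.e s) ((x ∘ cv.a s) ∘ (cv.a s).symm)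
  rw [this]

/-- structures with isomorphic domains -/
theorem transport (A : H69.BP.Str ρ M) (φ : N ≃ M) :
    H69.BP.IsEmb (fun s (t : ρ.Ar s → N) => A s (φ ∘ t)) A φ :=
  ⟨φ.injective, fun _ _ => Iff.rfl⟩

theorem transport' (A : H69.BP.Str ρ M) (φ : N ≃ M) :
    H69.BP.IsEmb A (fun s (t : ρ.Ar s → N) => A s (φ ∘ t)) φ.symm := by
  refine ⟨φ.symm.injective, fun s t => ?_⟩
  have : φ ∘ (φ.symm ∘ t) = t := by
    funext p
    simp
  change A s t ↔ A s (φ ∘ (φ.symm ∘ t))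
  rw [this]

theorem Corr.finBounded (hA : Corr cv A 𝔸) : H69.BP.FinBounded A ↔ BP.FinitelyBounded 𝔸 := by
  classical
  constructor
  · rintro ⟨I, hI, D, hD, F, hF⟩
    have hfin := Fintype.ofFinite I
    -- numbered versions of the bounds
    have h1 : ∀ i : I, ∃ 𝕐 : Σ n : ℕ, BP.Str σ (Fin n), ∃ (φ : Fin 𝕐.1 ≃ D i),
        Corr cv (fun s (t : ρ.Ar s → Fin 𝕐.1) => F i s (φ ∘ t)) 𝕐.2 := by
      intro i
      have := hD i
      obtain ⟨𝕐, h𝕐⟩ := exists_corr cv (fun s (t : ρ.Ar s → Fin (Nat.card (D i))) =>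
        F i s ((Finite.equivFin (D i)).symm ∘ t))
      exact ⟨⟨_, 𝕐⟩, (Finite.equivFin (D i)).symm, h𝕐⟩
    choose 𝕐 φ h𝕐 using h1
    refine ⟨(Finset.univ : Finset I).toList.map 𝕐, fun n 𝕏 => ?_⟩
    obtain ⟨X, hX⟩ := exists_corr' cv 𝕏
    have h2 := hF (Fin n) X
    have h3 : (∃ h, H69.BP.IsEmb X A h) ↔ BP.Embeds 𝕏 𝔸 := exists_congr fun h => hX.emb hA
    rw [← h3, h2]
    have h4 : ∀ i, (∃ h, H69.BP.IsEmb (F i) X h) ↔ BP.Embeds (𝕐 i).2 𝕏 := by
      intro i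
      have h5 : (∃ h, H69.BP.IsEmb (fun s (t : ρ.Ar s → Fin (𝕐 i).1) => F i s (φ i ∘ t)) X h) ↔
          BP.Embeds (𝕐 i).2 𝕏 := exists_congr fun h => (h𝕐 i).emb hX
      rw [← h5]
      constructor
      · rintro ⟨h, hh⟩
        exact ⟨_, H69.BP.IsEmb.comp hh (transport (F i) (φ i))⟩
      · rintro ⟨h, hh⟩
        exact ⟨_, H69.BP.IsEmb.comp hh (transport' (F i) (φ i))⟩
    simp only [h4, List.mem_map, Finset.mem_toList, Finset.mem_univ, true_and]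
    constructor
    · rintro h _ ⟨i, rfl⟩
      exact h i
    · intro h i
      exact h _ ⟨i, rfl⟩
  · rintro ⟨L, hL⟩
    have h1 : ∀ i : Fin L.length, ∃ Y : H69.BP.Str ρ (Fin (L.get i).1), Corr cv Y (L.get i).2 :=
      fun i => exists_corr' cv _
    choose Y hY using h1
    refine ⟨Fin L.length, inferInstance, fun i => Fin (L.get i).1, fun i => inferInstance, Y, ?_⟩
    intro X hX C
    let φ := (Finite.equivFin X).symm
    let C' : H69.BP.Str ρ (Fin (Nat.card X)) := fun s t => C s (φ ∘ t)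
    obtain ⟨𝕏, h𝕏⟩ := exists_corr cv C'
    have h2 := hL _ 𝕏
    have h3 : (∃ h, H69.BP.IsEmb C A h) ↔ BP.Embeds 𝕏 𝔸 := by
      have h5 : (∃ h, H69.BP.IsEmb C' A h) ↔ BP.Embeds 𝕏 𝔸 := exists_congr fun h => h𝕏.emb hA
      rw [← h5]
      constructor
      · rintro ⟨h, hh⟩
        exact ⟨_, H69.BP.IsEmb.comp hh (transport C φ)⟩
      · rintro ⟨h, hh⟩
        exact ⟨_, H69.BP.IsEmb.comp hh (transport' C φ)⟩
    have h4 : ∀ i : Fin L.length, (∃ h, H69.BP.IsEmb (Y i) C h) ↔ BP.Embeds (L.get i).2 𝕏 := by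
      intro i
      have h5 : (∃ h, H69.BP.IsEmb (Y i) C' h) ↔ BP.Embeds (L.get i).2 𝕏 :=
        exists_congr fun h => (hY i).emb h𝕏
      rw [← h5]
      constructor
      · rintro ⟨h, hh⟩
        exact ⟨_, H69.BP.IsEmb.comp (transport' C φ) hh⟩
      · rintro ⟨h, hh⟩
        exact ⟨_, H69.BP.IsEmb.comp (transport C φ) hh⟩
    rw [h3, h2]
    simp only [h4]
    constructor
    · intro h i
      exact h _ (List.get_mem L i)
    · intro h 𝕐 h𝕐
      obtain ⟨i, rfl⟩ := List.get_of_mem h𝕐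
      exact h i

end

/-- a numbering compatible with a given one -/
theorem exists_cv_compat {f : ρ.Sym → ρ'.Sym} (e : ∀ s, ρ.Ar s ≃ ρ'.Ar (f s)) (hf : Injective f)
    (cv : Cv ρ σ) : ∃ (σ' : BP.Sig) (cv' : Cv ρ' σ'), ∀ s,
      ∃ h : σ'.ar (cv'.e (f s)) = σ.ar (cv.e s), ∀ p : ρ.Ar s,
        Fin.cast h (cv'.a (f s) (e s p)) = cv.a s p := by
  classical
  have := ρ'.finSym
  have h2 := ρ'.finAr
  have key : ∀ r : ρ'.Sym, ∃ (n : ℕ) (b : ρ'.Ar r ≃ Fin n), ∀ (s : ρ.Sym) (h : f s = r),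
      ∃ h' : n = σ.ar (cv.e s), ∀ p : ρ.Ar s,
        Fin.cast h' (b (cast (by rw [h]) (e s p))) = cv.a s p := by
    intro r
    by_cases hr : ∃ s, f s = r
    · obtain ⟨s, rfl⟩ := hr
      refine ⟨_, (e s).symm.trans (cv.a s), ?_⟩
      intro s' h
      have h' := hf h
      subst h'
      refine ⟨rfl, fun p => ?_⟩
      simp
    · exact ⟨_, Finite.equivFin (ρ'.Ar r), fun s h => absurd ⟨s, h⟩ hr⟩
  choose n b hb using key
  let E := Finite.equivFin ρ'.Sym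
  have e1 : ∀ r, n r = n (E.symm (E r)) := fun r => by rw [Equiv.symm_apply_apply]
  refine ⟨⟨Nat.card ρ'.Sym, fun l => n (E.symm l)⟩, ⟨E, fun r => (b r).trans (finCongr (e1 r))⟩,
    fun s => ?_⟩
  obtain ⟨h1, h3⟩ := hb (f s) s rfl
  exact ⟨(e1 (f s)).symm.trans h1, fun p => h3 p⟩

theorem Corr.reduct {cv : Cv ρ σ} {cv' : Cv ρ' σ'} {A : H69.BP.Str ρ M} {𝔸 : BP.Str σ M}
    {B : H69.BP.Str ρ' M} {𝔹 : BP.Str σ' M} (hA : Corr cv A 𝔸) (hB : Corr cv' B 𝔹)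
    {f : ρ.Sym → ρ'.Sym} {e : ∀ s, ρ.Ar s ≃ ρ'.Ar (f s)} (hf : Injective f)
    (hr : ∀ s t, A s t ↔ B (f s) (t ∘ (e s).symm))
    (hc : ∀ s, ∃ h : σ'.ar (cv'.e (f s)) = σ.ar (cv.e s), ∀ p : ρ.Ar s,
        Fin.cast h (cv'.a (f s) (e s p)) = cv.a s p) : BP.IsReduct 𝔸 𝔹 := by
  refine ⟨fun l => cv'.e (f (cv.e.symm l)),
    cv'.e.injective.comp (hf.comp cv.e.symm.injective), ?_⟩
  intro l
  obtain ⟨s, rfl⟩ := cv.e.surjective l
  have key : ∀ s' (_ : s' = s), ∃ h : σ'.ar (cv'.e (f s')) = σ.ar (cv.e s),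
      ∀ x : Fin (σ.ar (cv.e s)) → M, 𝔸 (cv.e s) x ↔ 𝔹 (cv'.e (f s')) (fun i => x (Fin.cast h i)) := by
    rintro s' rfl
    obtain ⟨h, h1⟩ := hc s'
    refine ⟨h, fun x => ?_⟩
    rw [hA s', hr s', hB]
    have : (x ∘ cv.a s') ∘ (e s').symm = (fun i => x (Fin.cast h i)) ∘ cv'.a (f s') := by
      funext q
      have h2 := h1 ((e s').symm q)
      simp only [Equiv.apply_symm_apply] at h2
      simp only [comp_apply]
      rw [← h2]
    rw [this]
  exact key _ (Equiv.symm_apply_apply _ _)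

theorem reduct_toH {σ σ' : BP.Sig} {𝔸 : BP.Str σ M} {𝔹 : BP.Str σ' M} (h : BP.IsReduct 𝔸 𝔹) :
    H69.BP.IsReduct (σ := toH σ) (τ := toH σ') 𝔸 𝔹 := by
  obtain ⟨ι, h1, h2⟩ := h
  choose h3 h4 using h2
  exact ⟨ι, fun s => finCongr (h3 s).symm, h1, fun s t => h4 s t⟩

theorem corr_toH {σ : BP.Sig} (𝔸 : BP.Str σ M) : Corr (cvId σ) 𝔸 𝔸 := fun _ _ => Iff.rfl

end Pool.Agent.H68.BT
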