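import Pool.Agent.H68.BT.Red

/-!
# The reduction to `k`-transitive templates
-/

namespace Pool.Agent.H68.BT

open Function

theorem main_pos {k : ℕ} (hk : 0 < k) {σ : BP.Sig} {D : Type} (𝔸 : BP.Str σ D)
    (h : BP.InScope 𝔸) :
    ∃ (σ' : BP.Sig) (𝔸' : BP.Str σ' ℕ), BP.TransitiveTemplate k 𝔸' ∧
      (BP.ModelCompleteCore 𝔸 → BP.ModelCompleteCore 𝔸') ∧
      (BP.PPConstructsK3 𝔸' ↔ BP.PPConstructsK3 𝔸) ∧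
      N793a5b8e.ManyOneReducible (BP.CSP 𝔸) (BP.CSP 𝔸') := by
  obtain ⟨hcount, hne, τ, 𝔹, hB, hF, hR⟩ := h
  have c1 := corr_toH 𝔸
  have c2 := corr_toH 𝔹
  have hB' := c2.homogeneous.2 hB
  have hF' := c2.finBounded.2 hF
  have hR' := reduct_toH hR
  obtain ⟨c, hc⟩ := H69.BP.exists_ext k D
  have r1 := H69.BP.blow_isReduct (k := k) hR' c
  obtain ⟨f, e, h1, h2⟩ := r1
  obtain ⟨σ', ⟨cv⟩⟩ := exists_cv (H69.BP.blow (toH σ) k)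
  obtain ⟨τ', cv', hcv⟩ := exists_cv_compat e h1 cv
  obtain ⟨𝔸', hA'⟩ := exists_corr cv (H69.BP.blowStr (σ := toH σ) 𝔸 c)
  obtain ⟨𝔹', hB''⟩ := exists_corr cv' (H69.BP.blowStr (σ := toH τ) 𝔹 c)
  refine ⟨σ', 𝔸', ⟨inferInstance, inferInstance, τ', 𝔹', ?_, ?_, ?_, ?_, ?_⟩, ?_, ?_, ?_⟩
  · exact hB''.homogeneous.1 (H69.BP.blow_homogeneous hB' hc)
  · exact hB''.finBounded.1 (H69.BP.blow_finBounded hF' hc)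
  · exact hA'.reduct hB'' h1 h2 hcv
  · exact hB''.kTransitive.1 (H69.BP.blow_kTransitive _ hc)
  · exact hB''.noAlgebraicity.1 (H69.BP.blow_noAlgebraicity _ hc)
  · intro hA
    exact hA'.core.1 (H69.BP.blow_core (c1.core.2 hA) hc hk)
  · rw [← hA'.ppK3, ← c1.ppK3]
    exact ⟨H69.BP.ppK3_down hc, H69.BP.ppK3_up hc⟩
  · exact manyOne_blow cv hc hA'

theorem main (k : ℕ) {σ : BP.Sig} {D : Type} (𝔸 : BP.Str σ D) (h : BP.InScope 𝔸) :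
    ∃ (σ' : BP.Sig) (D' : Type) (𝔸' : BP.Str σ' D'), BP.TransitiveTemplate k 𝔸' ∧
      (BP.ModelCompleteCore 𝔸 → BP.ModelCompleteCore 𝔸') ∧
      (BP.PPConstructsK3 𝔸' ↔ BP.PPConstructsK3 𝔸) ∧
      N793a5b8e.ManyOneReducible (BP.CSP 𝔸) (BP.CSP 𝔸') := by
  rcases Nat.eq_zero_or_pos k with rfl | hk
  · obtain ⟨σ', 𝔸', ⟨h1, h2, τ, 𝔹, h3, h4, h5, -, h6⟩, h7⟩ := main_pos one_pos 𝔸 h
    refine ⟨σ', ℕ, 𝔸', ⟨h1, h2, τ, 𝔹, h3, h4, h5, ?_, h6⟩, h7⟩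
    intro x y _ _
    exact ⟨Equiv.refl _, fun _ _ => Iff.rfl, fun i => i.elim0⟩
  · obtain ⟨σ', 𝔸', h1⟩ := main_pos hk 𝔸 h
    exact ⟨σ', ℕ, 𝔸', h1⟩

theorem inScope_of_transitive {k : ℕ} {σ : BP.Sig} {D : Type} {𝔸 : BP.Str σ D}
    (h : BP.TransitiveTemplate k 𝔸) : BP.InScope 𝔸 := by
  obtain ⟨h1, h2, τ, 𝔹, h3, h4, h5, -, -⟩ := h
  exact ⟨h1, inferInstance, τ, 𝔹, h3, h4, h5⟩

end Pool.Agent.H68.BT
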