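import Pool.Agent.H68.BT.Cv

/-!
# Primitive positive constructions in the two formalisms
-/

namespace Pool.Agent.H68.BT

open Function

variable {ρ : H69.BP.Sig} {σ : BP.Sig} {M : Type} {cv : Cv ρ σ}
  {A : H69.BP.Str ρ M} {𝔸 : BP.Str σ M}

theorem Corr.ppDef (hA : Corr cv A 𝔸) {ι : Type} [Finite ι] {R : (ι → M) → Prop} :
    H69.BP.PPDef A R ↔ BP.PPDefinable 𝔸 {x | R x} := by
  classical
  have := Fintype.ofFinite ι
  constructor
  · rintro ⟨X, hX, C, x, hR⟩
    let φ := Finite.equivFin X
    obtain ⟨𝕊, h𝕊⟩ := exists_corr cv (fun s (t : ρ.Ar s → Fin (Nat.card X)) => C s (φ.symm ∘ t))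
    have key : ∀ a : ι → M, R a ↔ ∃ y : Fin (Nat.card X) → M, BP.IsHom 𝕊 𝔸 y ∧
        ∀ i, a i = y (φ (x i)) := by
      intro a
      rw [hR a]
      constructor
      · rintro ⟨h, h1, rfl⟩
        refine ⟨h ∘ φ.symm, (h𝕊.hom hA).1 ?_, fun i => ?_⟩
        · intro s t ht
          exact h1 s _ ht
        · simp
      · rintro ⟨y, h1, h2⟩
        refine ⟨y ∘ φ, ?_, funext fun i => (h2 i).symm⟩
        intro s t ht
        refine (h𝕊.hom hA).2 h1 s (φ ∘ t) ?_
        have : φ.symm ∘ (φ ∘ t) = t := by
          funext p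
          simp
        change C s (φ.symm ∘ (φ ∘ t))
        rw [this]
        exact ht
    let L1 : List (BP.Atom σ (ι ⊕ Fin (Nat.card X))) :=
      (Finset.univ : Finset ι).toList.map (fun i => .eq (Sum.inl i) (Sum.inr (φ (x i))))
    let L2 : List (BP.Atom σ (ι ⊕ Fin (Nat.card X))) :=
      ((Finset.univ : Finset (Σ l : Fin σ.m, (Fin (σ.ar l) → Fin (Nat.card X)))).filter
        (fun p => 𝕊 p.1 p.2)).toList.map (fun p => .rel p.1 (fun i => Sum.inr (p.2 i)))
    refine ⟨Nat.card X, L1 ++ L2, fun a => ?_⟩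
    change R a ↔ _
    rw [key]
    refine exists_congr fun y => ?_
    constructor
    · rintro ⟨h1, h2⟩ b hb
      rw [List.mem_append] at hb
      rcases hb with hb | hb
      · obtain ⟨i, -, rfl⟩ := List.mem_map.1 hb
        exact h2 i
      · obtain ⟨p, hp, rfl⟩ := List.mem_map.1 hb
        rw [Finset.mem_toList, Finset.mem_filter] at hp
        exact h1 p.1 p.2 hp.2
    · intro h
      refine ⟨fun l t ht => ?_, fun i => ?_⟩
      · exact h (.rel l (fun i => Sum.inr (t i))) (List.mem_append.2 (Or.inr (List.mem_map.2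
          ⟨⟨l, t⟩, by simpa using ht, rfl⟩)))
      · exact h (.eq (Sum.inl i) (Sum.inr (φ (x i)))) (List.mem_append.2 (Or.inl (List.mem_map.2
          ⟨i, by simp, rfl⟩)))
  · rintro ⟨q, L, hL⟩
    let X := Quot (fun u v : ι ⊕ Fin q => BP.Atom.eq u v ∈ L)
    let mk : ι ⊕ Fin q → X := Quot.mk _
    let 𝕊 : BP.Str σ X := fun l t => ∃ t', BP.Atom.rel l t' ∈ L ∧ t = fun i => mk (t' i)
    obtain ⟨C, hC⟩ := exists_corr' cv 𝕊
    refine ⟨X, Finite.of_surjective mk Quot.mk_surjective, C, fun i => mk (Sum.inl i),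
      fun a => ?_⟩
    have h0 : R a ↔ ∃ y : Fin q → M, ∀ b ∈ L, b.Holds 𝔸 (Sum.elim a y) := hL a
    rw [h0]
    constructor
    · rintro ⟨y, hy⟩
      refine ⟨Quot.lift (Sum.elim a y) (fun u v huv => hy _ huv), (hC.hom hA).2 ?_, rfl⟩
      rintro l _ ⟨t', ht', rfl⟩
      exact hy _ ht'
    · rintro ⟨h, h1, h2⟩
      have h1 := (hC.hom hA).1 h1
      have h3 : Sum.elim a (fun j => h (mk (Sum.inr j))) = fun u => h (mk u) := by
        funext u
        rcases u with i | j
        · exact (congrFun h2 i).symm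
        · rfl
      refine ⟨fun j => h (mk (Sum.inr j)), fun b hb => ?_⟩
      rw [h3]
      cases b with
      | eq u v => exact congrArg h (Quot.sound hb)
      | rel l t => exact h1 l _ ⟨t, hb, rfl⟩

theorem ppDef_reindex {ι κ : Type} (e : κ ≃ ι) {R : (ι → M) → Prop} (h : H69.BP.PPDef A R) :
    H69.BP.PPDef A (fun b : κ → M => R (b ∘ e.symm)) := by
  obtain ⟨X, hX, C, x, hR⟩ := h
  refine ⟨X, hX, C, x ∘ e, fun b => ?_⟩
  change R (b ∘ e.symm) ↔ _
  rw [hR]
  refine exists_congr fun h => and_congr_right fun _ => ?_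
  constructor
  · intro h1
    funext i
    have := congrFun h1 (e i)
    simpa using this
  · rintro rfl
    funext i
    simp

theorem Corr.ppK3 (hA : Corr cv A 𝔸) :
    H69.BP.PPConstructs A H69.BP.K3 ↔ BP.PPConstructsK3 𝔸 := by
  classical
  constructor
  · rintro ⟨ι, hι, P, h1, ⟨g, hg⟩, ⟨a, ha⟩⟩
    let e := (Finite.equivFin ι).symm
    have hne : Nonempty ι := by
      by_contra hne
      rw [not_nonempty_iff] at hne
      have h2 : P () (a ∘ (fun b : Bool => if b then (1 : Fin 3) else 0)) := ha () _ (by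
        change (if false then (1 : Fin 3) else 0) ≠ if true then (1 : Fin 3) else 0
        decide)
      have h3 := hg () _ h2
      apply h3
      change g (a _) = g (a _)
      congr 1
      exact Subsingleton.elim _ _
    refine ⟨Nat.card ι, fun u v => P () (fun b => if b then v ∘ e.symm else u ∘ e.symm),
      Nat.one_le_iff_ne_zero.2 (Nat.card_ne_zero.2 ⟨hne, hι⟩), ?_, ?_, ?_⟩
    · let E : Fin (Nat.card ι) ⊕ Fin (Nat.card ι) ≃ Bool × ι :=
        { toFun := Sum.elim (fun i => (false, e i)) (fun i => (true, e i))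
          invFun := fun p => if p.1 then Sum.inr (e.symm p.2) else Sum.inl (e.symm p.2)
          left_inv := by
            rintro (i | i) <;> simp
          right_inv := by
            rintro ⟨b, i⟩
            cases b <;> simp }
      have h2 := hA.ppDef.1 (ppDef_reindex E (h1 ()))
      have h3 : {x : Fin (Nat.card ι) ⊕ Fin (Nat.card ι) → M |
          P () fun i j => (x ∘ E.symm) (i, j)} = {z | P () (fun b => if b then
            (fun i => z (Sum.inr i)) ∘ e.symm else (fun i => z (Sum.inl i)) ∘ e.symm)} := by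
        ext z
        have : (fun i j => (z ∘ E.symm) (i, j)) = (fun b : Bool => if b then
            (fun i => z (Sum.inr i)) ∘ e.symm else (fun i => z (Sum.inl i)) ∘ e.symm) := by
          funext b j
          cases b <;> rfl
        simp only [Set.mem_setOf_eq]
        rw [this]
      rw [h3] at h2
      exact h2
    · refine ⟨fun b i => a b (e i), fun b c hbc => ?_⟩
      have h2 : P () (a ∘ (fun b' : Bool => if b' then c else b)) := ha () _ (by
        change (if false then c else b) ≠ if true then c else b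
        simpa using hbc)
      have h3 : (a ∘ (fun b' : Bool => if b' then c else b)) = fun b' : Bool =>
          if b' then (fun i => a c (e i)) ∘ e.symm else (fun i => a b (e i)) ∘ e.symm := by
        funext b' i
        cases b' <;> simp
      rw [h3] at h2
      exact h2
    · refine ⟨fun u => g (u ∘ e.symm), fun u v huv => ?_⟩
      exact hg () _ huv
  · rintro ⟨n, E, hn, h1, ⟨t, ht⟩, ⟨c, hc⟩⟩
    refine ⟨Fin n, inferInstance, fun _ t => E (t false) (t true), fun _ => ?_, ⟨c, ?_⟩, ⟨t, ?_⟩⟩
    · let F : Bool × Fin n ≃ Fin n ⊕ Fin n :=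
        { invFun := Sum.elim (fun i => (false, i)) (fun i => (true, i))
          toFun := fun p => if p.1 then Sum.inr p.2 else Sum.inl p.2
          right_inv := by
            rintro (i | i) <;> simp
          left_inv := by
            rintro ⟨b, i⟩
            cases b <;> simp }
      have h2 := ppDef_reindex F (hA.ppDef.2 h1)
      exact h2
    · intro _ t ht
      exact hc _ _ ht
    · intro _ x hx
      exact ht _ _ hx

end Pool.Agent.H68.BT
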